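import Pool.Agent.Helper757.TI.Sanity

namespace Pool.Agent.Results.MP_b9f29c_an.ConeOverO2

open Pool.Agent.Helper757.TI

/-- There is a separable, nuclear, stably finite (unital) C*-algebra that is not locally
approximable by type I C*-algebras. -/
theorem result : ∃ (A : Type) (_ : CStarAlgebra A), TopologicalSpace.SeparableSpace A ∧
    IsNuclear A ∧ IsStablyFinite A ∧ ¬ IsLocallyTypeI A :=
  main

end Pool.Agent.Results.MP_b9f29c_an.ConeOverO2
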